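import Pool.Agent.FDC.Final
import Pool.Agent.FDC.Bdd
import Pool.Agent.FDC.Trans
import Pool.Agent.FDC.Asc
import Pool.Agent.FDC.Desc
import Pool.Agent.FDC.GrigSq
import Pool.Agent.FDC.Perm

set_option autoImplicit false

/-!
# Grigorchuk's group has neither finite nor weak finite decomposition complexity

The definitions are in `Pool/Agent/FDC/Defs.lean`.
-/

namespace Pool.Agent.Results.MP_bba340_al.GrigorchukNotWeakFDC

open Pool.Agent.FDC

/-- **Theorem.** For every finite generating set `S` of Grigorchuk's group (the group of
permutations of the infinite binary sequences generated by `a, b, c, d`), the group with the word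
metric of `S` does not have finite decomposition complexity, and it does not have weak finite
decomposition complexity. -/
theorem result (S : Set Grigorchuk) (hfin : S.Finite) (hS : Subgroup.closure S = ⊤) :
    ¬ HasFDC {wordSpace S hS} ∧ ¬ HasWeakFDC {wordSpace S hS} := by
  have h : ¬ HasWeakFDC {wordSpace S hS} :=
    final_of (p_main p_bdd p_trans (p_mv p_asc p_desc)) p_good p_sq p_perm S hfin hS
  exact ⟨fun h' => h (hasWeakFDC_of_hasFDC h'), h⟩

end Pool.Agent.Results.MP_bba340_al.GrigorchukNotWeakFDC
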